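import Pool.Agent.W425.ND.Stm

set_option autoImplicit false

/-! Project ND, part K4: Nullstellensatz. -/

namespace Pool.Agent.W451.ND

open MvPolynomial Pool.Agent.W425.ND

variable {N r : ℕ}

/-- exponent vector -/
noncomputable def vv (v : Fin r → Fin N → ℕ) (j : Fin r) : Fin N →₀ ℕ :=
  Finsupp.equivFunOnFinite.symm (v j)

/-- sum of exponent vectors -/
noncomputable def sv (v : Fin r → Fin N → ℕ) (β : Fin r → ℕ) : Fin N →₀ ℕ :=
  Finsupp.equivFunOnFinite.symm fun i => ∑ j, β j * v j i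

lemma prod_X (w : Fin N → ℕ) : (∏ i, (X i : MvPolynomial (Fin N) ℂ) ^ w i) =
    monomial (Finsupp.equivFunOnFinite.symm w) 1 := by
  rw [monomial_eq, C_1, one_mul, Finsupp.prod_fintype _ _ (fun i => by simp)]
  rfl

/-- the homomorphism to the graded ring -/
noncomputable def phi (v : Fin r → Fin N → ℕ) :
    MvPolynomial (Fin r) ℂ →+* Polynomial (MvPolynomial (Fin N) ℂ) :=
  eval₂Hom (Polynomial.C.comp C) (fun j => Polynomial.X * Polynomial.C (monomial (vv v j) 1))

lemma phi_X (v : Fin r → Fin N → ℕ) (j : Fin r) :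
    phi v (X j) = Polynomial.X * Polynomial.C (monomial (vv v j) 1) := by
  unfold phi
  simp

lemma phi_C (v : Fin r → Fin N → ℕ) (b : ℂ) : phi v (C b) = Polynomial.C (C b) := by
  unfold phi
  simp

lemma sum_vv (v : Fin r → Fin N → ℕ) (β : Fin r → ℕ) : ∑ j, β j • vv v j = sv v β := by
  ext i
  simp [vv, sv, Finsupp.finsetSum_apply]

lemma prod_vv (v : Fin r → Fin N → ℕ) (β : Fin r → ℕ) :
    ∏ j, (monomial (vv v j) (1 : ℂ)) ^ β j = monomial (sv v β) 1 := by
  simp only [monomial_pow, one_pow]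
  rw [← monomial_sum_one, sum_vv]

lemma phi_prod (v : Fin r → Fin N → ℕ) (β : Fin r → ℕ) :
    phi v (∏ j, X j ^ β j) = Polynomial.monomial (∑ j, β j) (monomial (sv v β) 1) := by
  rw [map_prod]
  simp only [map_pow, phi_X, mul_pow]
  rw [Finset.prod_mul_distrib, Finset.prod_pow_eq_pow_sum, ← Polynomial.C_mul_X_pow_eq_monomial,
    mul_comm]
  congr 1
  rw [← prod_vv, map_prod]
  simp only [map_pow]

lemma hul_sv (v : Fin r → Fin N → ℕ) (β : Fin r → ℕ) : Hul v (∑ j, β j) (sv v β) := by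
  refine ⟨fun j => (β j : ℝ), fun j => Nat.cast_nonneg _, by push_cast; rfl, fun i => ?_⟩
  simp [sv]

lemma supH_add (v : Fin r → Fin N → ℕ) (m : ℕ) {p q : MvPolynomial (Fin N) ℂ}
    (hp : SupH v m p) (hq : SupH v m q) : SupH v m (p + q) := by
  intro c hc
  rw [coeff_add] at hc
  by_cases h : coeff c p = 0
  · rw [h, zero_add] at hc
    exact hq c hc
  · exact hp c h

lemma supH_phi (v : Fin r → Fin N → ℕ) (g : MvPolynomial (Fin r) ℂ) (k : ℕ) :
    SupH v k ((phi v g).coeff k) := by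
  induction g using MvPolynomial.induction_on' with
  | monomial β b =>
    have h1 : (monomial β b : MvPolynomial (Fin r) ℂ) = C b * ∏ j, X j ^ β j := by
      rw [monomial_eq, Finsupp.prod_fintype _ _ (fun i => by simp)]
    rw [h1, map_mul, phi_C, phi_prod, Polynomial.coeff_C_mul, Polynomial.coeff_monomial]
    intro c hc
    by_cases hk : ∑ j, β j = k
    · rw [if_pos hk, coeff_C_mul, coeff_monomial] at hc
      by_cases hc2 : sv v β = c
      · rw [← hc2, ← hk]
        exact hul_sv v β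
      · rw [if_neg hc2, mul_zero] at hc
        exact absurd rfl hc
    · rw [if_neg hk, mul_zero, coeff_zero] at hc
      exact absurd rfl hc
  | add p q hp hq =>
    rw [map_add, Polynomial.coeff_add]
    exact supH_add v k hp hq

/-- the linear forms -/
noncomputable def ell (v : Fin r → Fin N → ℕ) (a : Fin r → ℂ) :
    Option (Fin N) → MvPolynomial (Fin r) ℂ
  | none => ∑ j, C (a j) * X j
  | some i => ∑ j, C (a j * (v j i : ℂ)) * X j

/-- the generators -/
noncomputable def gen (v : Fin r → Fin N → ℕ) (a : Fin r → ℂ) :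
    Option (Fin N) → MvPolynomial (Fin N) ℂ
  | none => spa v a
  | some i => X i * pderiv i (spa v a)

lemma spa_eq (v : Fin r → Fin N → ℕ) (a : Fin r → ℂ) :
    spa v a = ∑ j, C (a j) * monomial (vv v j) 1 := by
  unfold spa
  refine Finset.sum_congr rfl (fun j _ => ?_)
  rw [prod_X]
  rfl

lemma X_mul_pderiv (i : Fin N) (s : Fin N →₀ ℕ) (b : ℂ) :
    X i * pderiv i (monomial s b) = monomial s (b * (s i : ℂ)) := by
  rw [pderiv_monomial, X, monomial_mul, one_mul]
  by_cases h : s i = 0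
  · simp [h]
  · congr 1
    rw [add_tsub_cancel_of_le]
    rw [Finsupp.single_le_iff]
    omega

lemma gen_some (v : Fin r → Fin N → ℕ) (a : Fin r → ℂ) (i : Fin N) :
    X i * pderiv i (spa v a) = ∑ j, C (a j * (v j i : ℂ)) * monomial (vv v j) 1 := by
  rw [spa_eq, map_sum, Finset.mul_sum]
  refine Finset.sum_congr rfl (fun j _ => ?_)
  rw [C_mul_monomial, C_mul_monomial, X_mul_pderiv, mul_one, mul_one]
  rfl

lemma phi_ell (v : Fin r → Fin N → ℕ) (a : Fin r → ℂ) (o : Option (Fin N)) :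
    phi v (ell v a o) = Polynomial.X * Polynomial.C (gen v a o) := by
  cases o with
  | none =>
    simp only [ell, gen, map_sum, map_mul, phi_X, phi_C, spa_eq, Finset.mul_sum]
    refine Finset.sum_congr rfl (fun j _ => ?_)
    ring
  | some i =>
    simp only [ell, gen, gen_some, map_sum, map_mul, phi_X, phi_C, Finset.mul_sum]
    refine Finset.sum_congr rfl (fun j _ => ?_)
    ring

/-- the binomials -/
def Bin (v : Fin r → Fin N → ℕ) : Set (MvPolynomial (Fin r) ℂ) :=
  {p | ∃ n n' : Fin r → ℕ, ∑ j, n j = ∑ j, n' j ∧ (∀ i, ∑ j, n j * v j i = ∑ j, n' j * v j i) ∧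
    p = ∏ j, X j ^ n j - ∏ j, X j ^ n' j}

lemma phi_bin (v : Fin r → Fin N → ℕ) {p : MvPolynomial (Fin r) ℂ} (hp : p ∈ Bin v) :
    phi v p = 0 := by
  obtain ⟨n, n', h1, h2, rfl⟩ := hp
  rw [map_sub, phi_prod, phi_prod, h1]
  have : sv v n = sv v n' := by
    unfold sv
    congr 1
    funext i
    exact h2 i
  rw [this, sub_self]

/-- the ideal -/
noncomputable def II (v : Fin r → Fin N → ℕ) (a : Fin r → ℂ) : Ideal (MvPolynomial (Fin r) ℂ) :=
  Ideal.span (Bin v ∪ Set.range (ell v a))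

lemma mem_II (v : Fin r → Fin N → ℕ) (a : Fin r → ℂ) {p : MvPolynomial (Fin r) ℂ}
    (hp : p ∈ II v a) : ∃ g : Option (Fin N) → MvPolynomial (Fin r) ℂ,
      phi v p = ∑ o, phi v (g o) * (Polynomial.X * Polynomial.C (gen v a o)) := by
  classical
  unfold II at hp
  refine Submodule.span_induction (p := fun p _ => ∃ g : Option (Fin N) → MvPolynomial (Fin r) ℂ,
      phi v p = ∑ o, phi v (g o) * (Polynomial.X * Polynomial.C (gen v a o))) ?_ ?_ ?_ ?_ hp
  · rintro x (hx | ⟨o, rfl⟩)
    · refine ⟨fun _ => 0, ?_⟩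
      rw [phi_bin v hx]
      simp
    · refine ⟨fun o' => if o' = o then 1 else 0, ?_⟩
      rw [phi_ell, Finset.sum_eq_single o]
      · simp
      · intro b _ hb
        simp [hb]
      · intro h
        exact absurd (Finset.mem_univ _) h
  · exact ⟨fun _ => 0, by simp⟩
  · rintro x y _ _ ⟨g, hg⟩ ⟨g', hg'⟩
    refine ⟨fun o => g o + g' o, ?_⟩
    rw [map_add, hg, hg', ← Finset.sum_add_distrib]
    refine Finset.sum_congr rfl (fun o _ => ?_)
    rw [map_add, add_mul]
  · rintro b x _ ⟨g, hg⟩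
    refine ⟨fun o => b * g o, ?_⟩
    rw [smul_eq_mul, map_mul, hg, Finset.mul_sum]
    refine Finset.sum_congr rfl (fun o _ => ?_)
    rw [map_mul, mul_assoc]

lemma X_mem_radical (v : Fin r → Fin N → ℕ) (a : Fin r → ℂ)
    (h : ∀ c : Fin r → ℂ, Toric v c → ∑ j, a j * c j = 0 →
      (∀ i, ∑ j, a j * (v j i : ℂ) * c j = 0) → c = 0) (j : Fin r) :
    (X j : MvPolynomial (Fin r) ℂ) ∈ (II v a).radical := by
  rw [← vanishingIdeal_zeroLocus_eq_radical (K := ℂ), mem_vanishingIdeal_iff]
  intro x hx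
  have hx' : ∀ p ∈ II v a, aeval x p = 0 := hx
  have h0 : x = 0 := by
    refine h x ?_ ?_ ?_
    · intro n n' h1 h2
      have := hx' (∏ j, X j ^ n j - ∏ j, X j ^ n' j)
        (Ideal.subset_span (Or.inl ⟨n, n', h1, h2, rfl⟩))
      rw [map_sub, map_prod, map_prod, sub_eq_zero] at this
      simpa using this
    · have := hx' (ell v a none) (Ideal.subset_span (Or.inr ⟨_, rfl⟩))
      simpa [ell] using this
    · intro i
      have := hx' (ell v a (some i)) (Ideal.subset_span (Or.inr ⟨_, rfl⟩))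
      simpa [ell] using this
  rw [h0]
  simp

theorem k4 : TaskK4 := by
  classical
  intro r N v a h
  have h1 : ∀ j : Fin r, ∃ q : ℕ, (X j : MvPolynomial (Fin r) ℂ) ^ q ∈ II v a :=
    fun j => X_mem_radical v a h j
  choose q hq using h1
  refine ⟨∑ j, q j + 1, by omega, fun α hα => ?_⟩
  -- some exponent is large
  obtain ⟨j, hj⟩ : ∃ j, q j ≤ α j := by
    by_contra hcon
    push Not at hcon
    have : ∑ j, α j ≤ ∑ j, q j := Finset.sum_le_sum (fun j _ => (hcon j).le)
    omega
  have hmem : (∏ j, X j ^ α j : MvPolynomial (Fin r) ℂ) ∈ II v a := by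
    rw [← Finset.mul_prod_erase _ _ (Finset.mem_univ j)]
    refine Ideal.mul_mem_right _ _ ?_
    rw [← Nat.sub_add_cancel hj, pow_add]
    exact Ideal.mul_mem_left _ _ (hq j)
  obtain ⟨g, hg⟩ := mem_II v a hmem
  rw [phi_prod, hα] at hg
  have hc := congrArg (fun P => Polynomial.coeff P (∑ j, q j + 1)) hg
  simp only [Polynomial.coeff_monomial, if_true, Polynomial.finsetSum_coeff] at hc
  refine ⟨(phi v (g none)).coeff (∑ j, q j), fun i => (phi v (g (some i))).coeff (∑ j, q j),
    ?_, ?_, ?_⟩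
  · rw [Nat.add_sub_cancel]
    exact supH_phi v _ _
  · intro i
    rw [Nat.add_sub_cancel]
    exact supH_phi v _ _
  · have e1 : ∀ o, (phi v (g o) * (Polynomial.X * Polynomial.C (gen v a o))).coeff (∑ j, q j + 1)
        = (phi v (g o)).coeff (∑ j, q j) * gen v a o := by
      intro o
      rw [← mul_assoc, Polynomial.coeff_mul_C, Polynomial.coeff_mul_X]
    simp only [e1] at hc
    rw [Fintype.sum_option] at hc
    exact hc

end Pool.Agent.W451.ND
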